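import Pool.Agent.helper56.NZ.Spec

set_option autoImplicit false

open Complex Metric Set Filter Topology MeasureTheory
open Pool.Agent.helper98.ILF Pool.Agent.helper16.Multibrot
open HY (UD T S hd UN RM VV SG Orb fz)

noncomputable section

namespace NZ

theorem MPL_scale (q : ℝ) (hq0 : 0 < q) (hq1 : q ≤ 1) : UN (fun x : ℂ => (q : ℂ) * x) := by
  refine ⟨?_, ?_, ?_⟩
  · exact (differentiable_id.const_mul (q : ℂ)).differentiableOn
  · intro x _ y _ hxy
    have hq : (q : ℂ) ≠ 0 := by exact_mod_cast hq0.ne'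
    exact mul_left_cancel₀ hq hxy
  · intro x hx
    have hx' : ‖x‖ < 1 := by simpa [UD] using hx
    have h1 : ‖(q : ℂ) * x‖ ≤ ‖x‖ := by
      rw [norm_mul, Complex.norm_real, Real.norm_eq_abs, abs_of_pos hq0]
      nlinarith [norm_nonneg x]
    simpa [UD] using lt_of_le_of_lt h1 hx'

theorem MPL_scale_deriv (q : ℝ) (hq0 : 0 < q) : ‖deriv (fun x : ℂ => (q : ℂ) * x) 0‖ = q := by
  have h : HasDerivAt (fun x : ℂ => (q : ℂ) * x) ((q : ℂ) * 1) 0 := (hasDerivAt_id (0 : ℂ)).const_mul (q : ℂ)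
  rw [h.deriv, mul_one, Complex.norm_real, Real.norm_eq_abs, abs_of_pos hq0]

theorem MPL_id : UN (fun x : ℂ => x) := by
  refine ⟨differentiableOn_id, ?_, ?_⟩
  · intro x _ y _ hxy
    exact hxy
  · intro x hx
    exact hx

theorem MPL_iter {n : ℕ} {c : ℂ} {φ : ℂ → ℂ} {l₀ τ η : ℝ} {Mb : ℕ} {y : ℕ → ℂ} {j i : ℕ} {σ : ℂ → ℂ} {H : ℕ → ℂ → ℂ}
    (h : Fm n c φ l₀ τ η Mb y j i σ H) : ∀ m : ℕ, i + m ≤ j → ∀ x ∈ UD, (fz n c)^[m] (φ (H i x)) = φ (H (i + m) x) := by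
  intro m
  induction m with
  | zero => intro _ x _; rfl
  | succ m ih =>
    intro hm x hx
    rw [Function.iterate_succ_apply', ih (by omega) x hx]
    exact (h.rel (i + m) (by omega) (by omega) x hx).symm

theorem MPL (hSTL : STL_stmt) (hSTE : STE_stmt) (hLOS : LOS_stmt) (hHDC : HDC_stmt) (hCLB : HY.CLB_stmt)
    (hMOB : HY.MOB_stmt) : MPL_stmt := by
  intro n hn r hr
  obtain ⟨M₁, hM₁⟩ := hCLB n hn r hr
  -- choice of M
  obtain ⟨M₂, hM₂⟩ : ∃ M₂ : ℕ, (n : ℝ) * (1 / 2 : ℝ) ^ M₂ ≤ 1 / 4 := by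
    have ht : Tendsto (fun m : ℕ => (n : ℝ) * (1 / 2 : ℝ) ^ m) atTop (𝓝 ((n : ℝ) * 0)) :=
      (tendsto_pow_atTop_nhds_zero_of_lt_one (by norm_num) (by norm_num)).const_mul _
    rw [mul_zero] at ht
    have h := (ht.eventually (gt_mem_nhds (show (0 : ℝ) < 1 / 4 by norm_num))).exists
    obtain ⟨m, hm⟩ := h
    exact ⟨m, hm.le⟩
  refine ⟨max M₁ (max M₂ 1), le_trans (le_max_right M₂ 1) (le_max_right _ _), ?_⟩
  set M := max M₁ (max M₂ 1) with hMdef
  have hMM₁ : M₁ ≤ M := le_max_left _ _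
  have hMM₂ : M₂ ≤ M := le_trans (le_max_left M₂ 1) (le_max_right _ _)
  have hpowle : ∀ m : ℕ, m ≤ M → (1 / 2 : ℝ) ^ M ≤ (1 / 2 : ℝ) ^ m := fun m hm =>
    pow_le_pow_of_le_one (by norm_num) (by norm_num) hm
  have hnM : (n : ℝ) * (1 / 2 : ℝ) ^ M ≤ 1 / 4 :=
    le_trans (mul_le_mul_of_nonneg_left (hpowle M₂ hMM₂) (Nat.cast_nonneg n)) hM₂
  intro ε hε
  set ε₁ : ℝ := min ε (1 / 2) with hε₁def
  have hε₁ : 0 < ε₁ := lt_min hε (by norm_num)
  have hε₁le : ε₁ ≤ ε := min_le_left _ _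
  have hε₁h : ε₁ ≤ 1 / 2 := min_le_right _ _
  set q : ℝ := Real.exp (-(ε₁ / 2)) with hqdef
  have hq0 : 0 < q := Real.exp_pos _
  have hq1 : q < 1 := by
    rw [hqdef, Real.exp_lt_one_iff]
    linarith
  obtain ⟨l₀, hl₀, hl₀4, hSt⟩ := hSTL (1 - q) (by linarith) (by linarith)
  obtain ⟨Mb, η, hη, hη4, hL1, hL2⟩ := hLOS n hn r hr l₀ hl₀ (ε₁ / 4) (by linarith)
  obtain ⟨δ, hδ, hStep⟩ := hSTE l₀ η hl₀ hη hη4
  refine ⟨δ, hδ, ?_⟩
  intro τ hτ1 hτ2 c hc hdis V φ ψ b hSG y j hO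
  have hτ0 : 0 < τ := by linarith
  have hyj : y j ∈ UD := hO.mem j le_rfl
  -- the smallest index
  let P : ℕ → Prop := fun i => ∃ (σ : ℂ → ℂ) (H : ℕ → ℂ → ℂ), Fm n c φ l₀ τ η Mb y j i σ H ∧ 1 / 2 ≤ ‖deriv σ 0‖
  have hPj : P j := by
    have h4 := hHDC.2.2.2 (fun x => x) (y j) τ MPL_id rfl hyj hτ0 hτ2.le
    have hd1 : ‖deriv (fun x : ℂ => x) 0‖ = 1 := by
      have : HasDerivAt (fun x : ℂ => x) 1 0 := hasDerivAt_id (0 : ℂ)
      rw [this.deriv, norm_one]
    refine ⟨fun x => x, fun _ x => S (y j) (τ * x), ?_, by rw [hd1]; norm_num⟩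
    refine ⟨le_rfl, ?_, ?_, MPL_id, rfl, ?_, ?_, ?_, ?_⟩
    · intro l _ _
      exact h4.1
    · intro l h1 h2
      have hlj : l = j := le_antisymm h2 h1
      rw [hlj]
      exact h4.2.1
    · intro x _
      rfl
    · intro l h1 h2
      omega
    · intro l h1 h2
      omega
    · rw [hd1]
      simp
  classical
  have hex : ∃ i, P i := ⟨j, hPj⟩
  have hfind := Nat.find_spec hex
  have hmin : ∀ i, i < Nat.find hex → ¬ P i := fun i hi => Nat.find_min hex hi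
  set i₀ := Nat.find hex with hi₀
  have hi₀j : i₀ ≤ j := Nat.find_min' hex hPj
  obtain ⟨σ, H, hF, hσ⟩ := hfind
  have hsum := hL2 c hc hdis V φ hSG.rm τ M y j i₀ σ H hO hF hσ
  have hlos : Real.exp (-(ε₁ / 4)) ≤ ‖deriv σ 0‖ :=
    le_trans (Real.exp_le_exp.mpr (by linarith)) hF.los
  have hiter := MPL_iter hF (j - i₀) (by omega)
  have hjj : i₀ + (j - i₀) = j := by omega
  rw [hjj] at hiter
  by_cases h0 : i₀ = 0
  · -- case (a)
    left
    refine ⟨σ, fun x => φ (H 0 x), hF.sig, hF.sg0, ?_, ?_, ?_, ?_⟩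
    · exact le_trans (Real.exp_le_exp.mpr (by linarith)) hlos
    · have hU := hF.un 0 (by omega) (by omega)
      exact hSG.rm.dif.comp hU.dif hU.map
    · show φ (H 0 0) = φ (y 0)
      rw [hF.val 0 (by omega) (by omega)]
    · intro x hx
      have h1 := hiter x hx
      rw [h0] at h1
      show (fz n c)^[j] (φ (H 0 x)) = φ (S (y j) (τ * σ x))
      have h2 : j - 0 = j := by omega
      rw [h2] at h1
      rw [h1, hF.top x hx]
  · have hi₀pos : 0 < i₀ := Nat.pos_of_ne_zero h0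
    by_cases hbig : l₀ < hd (H i₀) 0
    · -- case (b)
      obtain ⟨i, hi⟩ : ∃ i, i₀ = i + 1 := ⟨i₀ - 1, by omega⟩
      have hF' : Fm n c φ l₀ τ η Mb y j (i + 1) σ H := hi ▸ hF
      have hbig' : l₀ < hd (H (i + 1)) 0 := hi ▸ hbig
      rcases hStep n c V φ ψ b hSG τ M Mb y j i σ H hnM hτ0 hτ2.le hO hF' hbig' with h | h
      · exfalso
        obtain ⟨σ', H', hF''⟩ := h
        apply hmin i (by omega)
        refine ⟨σ', H', hF'', ?_⟩
        have hij : i < j := by omega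
        have hs : ∑ q ∈ Finset.Ico i j, lam n Mb η y q = lam n Mb η y i + ∑ q ∈ Finset.Ico (i + 1) j, lam n Mb η y q :=
          Finset.sum_eq_sum_Ico_succ_bot hij _
        have hs2 : ∑ q ∈ Finset.Ico (i + 1) j, lam n Mb η y q ≤ ε₁ / 4 := by
          have := hsum
          rw [hi] at this
          exact this
        have hs1 := hL1 y i (hO.mem i hij.le)
        have hle : ∑ q ∈ Finset.Ico i j, lam n Mb η y q ≤ ε₁ / 2 := by
          rw [hs]; linarith
        have h3 : (1 : ℝ) / 2 ≤ Real.exp (-(∑ q ∈ Finset.Ico i j, lam n Mb η y q)) := by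
          have h4 := Real.add_one_le_exp (-(∑ q ∈ Finset.Ico i j, lam n Mb η y q))
          linarith
        exact le_trans h3 hF''.los
      · right
        exact h
    · -- case (c)
      left
      have hsmall : hd (H i₀) 0 ≤ l₀ := not_lt.mp hbig
      have hUN := hF.un i₀ le_rfl hi₀j
      have hval := hF.val i₀ le_rfl hi₀j
      have hyi : y i₀ ∈ UD := hO.mem i₀ hi₀j
      have hO' : Orb n c φ M₁ y i₀ := by
        refine ⟨fun i hi => hO.mem i (by omega), fun i hi => hO.stp i (by omega), fun i hi => ?_⟩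
        exact le_trans (hO.far i (by omega)) (hpowle M₁ hMM₁)
      obtain ⟨K, hK, hK0, hKit, _⟩ := hM₁ c hc hdis V φ ψ b hSG y i₀ hO' 0 (Nat.zero_le _)
      have hMy := hMOB (y i₀) hyi
      have hsc := MPL_scale q hq0 hq1.le
      have hcomp := hHDC.2.2.1 σ (fun x => (q : ℂ) * x) hF.sig hsc hF.sg0 (by simp)
      have hqx : ∀ x ∈ UD, (q : ℂ) * x ∈ UD := fun x hx => hsc.map hx
      have hT : ∀ x ∈ UD, ‖T (y i₀) (H i₀ ((q : ℂ) * x))‖ ≤ 1 / 32 := by
        intro x hx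
        have hx' : ‖x‖ < 1 := by simpa [UD] using hx
        have h1 := hSt (H i₀) hUN hsmall ((q : ℂ) * x) (by
          rw [norm_mul, Complex.norm_real, Real.norm_eq_abs, abs_of_pos hq0]
          nlinarith [norm_nonneg x])
        rw [hval] at h1
        exact h1
      have h16 : ∀ x ∈ UD, 16 * T (y i₀) (H i₀ ((q : ℂ) * x)) ∈ UD := by
        intro x hx
        have h1 := hT x hx
        have h2 : ‖16 * T (y i₀) (H i₀ ((q : ℂ) * x))‖ < 1 := by
          rw [norm_mul]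
          have : ‖(16 : ℂ)‖ = 16 := by simp
          rw [this]
          linarith
        simpa [UD] using h2
      refine ⟨fun x => σ ((q : ℂ) * x), fun x => φ (K (16 * T (y i₀) (H i₀ ((q : ℂ) * x)))), hcomp.1, ?_, ?_, ?_, ?_, ?_⟩
      · show σ ((q : ℂ) * 0) = 0
        rw [mul_zero, hF.sg0]
      · rw [hcomp.2, MPL_scale_deriv q hq0]
        have h1 : Real.exp (-ε) ≤ Real.exp (-(ε₁ / 4)) * q := by
          rw [hqdef, ← Real.exp_add]
          apply Real.exp_le_exp.mpr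
          linarith
        exact le_trans h1 (mul_le_mul_of_nonneg_right hlos hq0.le)
      · have d1 : DifferentiableOn ℂ (fun x : ℂ => H i₀ ((q : ℂ) * x)) UD := hUN.dif.comp hsc.dif hsc.map
        have d2 : DifferentiableOn ℂ (fun x : ℂ => T (y i₀) (H i₀ ((q : ℂ) * x))) UD :=
          hMy.2.2.2.1.comp d1 (fun x hx => hUN.map (hqx x hx))
        have d3 : DifferentiableOn ℂ (fun x : ℂ => 16 * T (y i₀) (H i₀ ((q : ℂ) * x))) UD := d2.const_mul 16
        have d4 : DifferentiableOn ℂ (fun x : ℂ => K (16 * T (y i₀) (H i₀ ((q : ℂ) * x)))) UD :=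
          hK.dif.comp d3 (fun x hx => h16 x hx)
        exact hSG.rm.dif.comp d4 (fun x hx => hK.map (h16 x hx))
      · show φ (K (16 * T (y i₀) (H i₀ ((q : ℂ) * 0)))) = φ (y 0)
        rw [mul_zero, hval, hMy.2.1, mul_zero, hK0]
      · intro x hx
        show (fz n c)^[j] (φ (K (16 * T (y i₀) (H i₀ ((q : ℂ) * x))))) = φ (S (y j) (τ * σ ((q : ℂ) * x)))
        have h1 := hKit (16 * T (y i₀) (H i₀ ((q : ℂ) * x))) (h16 x hx)
        rw [Nat.sub_zero] at h1
        have h2 : (16 * T (y i₀) (H i₀ ((q : ℂ) * x))) / 16 = T (y i₀) (H i₀ ((q : ℂ) * x)) := by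
          field_simp
        rw [h2, (hMy.1 (H i₀ ((q : ℂ) * x)) (hUN.map (hqx x hx))).2.2.1] at h1
        have h3 : (fz n c)^[j] (φ (K (16 * T (y i₀) (H i₀ ((q : ℂ) * x))))) =
            (fz n c)^[j - i₀] ((fz n c)^[i₀] (φ (K (16 * T (y i₀) (H i₀ ((q : ℂ) * x)))))) := by
          rw [← Function.iterate_add_apply]
          congr 2
          omega
        rw [h3, h1, hiter _ (hqx x hx), hF.top _ (hqx x hx)]

end NZ
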